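import Pool.Agent.H49.TRN.S1

/-!
# TRN: the numbers (rows NMA, NMB)
-/

set_option autoImplicit false

namespace Pool.TRN

theorem t_nma : NMAStmt := by
  intro k d q hk hkd hq h
  obtain ⟨P, rfl⟩ : ∃ P, k = P + q + 1 := ⟨k - 1 - q, by omega⟩
  obtain ⟨t, ht⟩ : ∃ t, d + 2 = P + q + 1 + t := ⟨d + 2 - (P + q + 1), by omega⟩
  have e1 : P + q + 1 - 1 - q = P := by omega
  have e2 : d + 2 - (P + q + 1) = t := by omega
  have e3 : d + 1 - t = P + q := by omega
  have e4 : P + q + 1 - 1 = P + q := by omega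
  rw [e1] at h ⊢
  rw [e2, e3, e4]
  refine ⟨?_, ?_, ?_⟩
  · have hd : d = P + q + t - 1 := by omega
    rcases Nat.eq_zero_or_pos (P + q + t) with h0 | h0
    · omega
    · have hd1 : d + 1 = P + q + t := by omega
      nlinarith
  · unfold aa
    have hdvd : P * (P - 1) / 2 * 2 = P * (P - 1) := by
      apply Nat.div_mul_cancel
      rcases Nat.even_or_odd P with hP | hP
      · exact (hP.two_dvd).mul_right _
      · obtain ⟨r, hr⟩ := hP
        have : P - 1 = 2 * r := by omega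
        rw [this]
        exact ⟨P * r, by ring⟩
    have e5 : 3 * (P + q + 1) - q = 3 * P + 2 * q + 3 := by omega
    rw [e5] at h
    set T := P * (P - 1) / 2 with hT
    rcases Nat.eq_zero_or_pos P with h0 | h0
    · subst h0
      simp at h
      rcases h with h | h
      · subst h; simp
      · subst h; simp
    · obtain ⟨r, rfl⟩ : ∃ r, P = r + 1 := ⟨P - 1, by omega⟩
      have : r + 1 - 1 = r := by omega
      rw [this] at hdvd
      nlinarith
  · have : (P + q + 1) ^ 2 = (P + q) ^ 2 + 2 * P + 1 + 2 * q := by ring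
    omega

theorem t_nmb : NMBStmt := by
  intro k d s hk hd h
  by_cases hs : k ^ 2 ≤ s + 2
  · exact ⟨0, by omega, by simp, by simpa using hs⟩
  push Not at hs
  obtain ⟨σ, hσ⟩ : ∃ σ, k ^ 2 = s + σ := ⟨k ^ 2 - s, by omega⟩
  have hσ3 : 3 ≤ σ := by omega
  have hk2 : 2 ≤ k := by
    by_contra hc
    have : k = 1 := by omega
    subst this
    omega
  have hdk : 2 * k ≤ d := by
    by_contra hc
    push Not at hc
    have : d ^ 2 < (2 * k) ^ 2 := Nat.pow_lt_pow_left hc (by omega)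
    nlinarith [Nat.pow_le_pow_left hk2 2, sq_nonneg k]
  have hd0 : 0 < d := by omega
  -- the main inequality
  have h1 : σ * (d ^ 2 + 3 * d + 2) + 3 * k * d + 2 ≤ 3 * k ^ 2 * d + 2 * k ^ 2 := by
    have : (k * d + 1) * (k * d + 2) + σ * ((d + 1) * (d + 2)) ≤ k ^ 2 * ((d + 1) * (d + 2)) := by
      rw [hσ]; nlinarith
    nlinarith
  have h2 : σ * d + 3 * k ≤ 3 * k ^ 2 := by
    by_contra hc
    push Not at hc
    rcases le_or_gt (2 * k ^ 2) (3 * σ * d) with h3 | h3
    · have h4 : 3 * k ^ 2 * d < (σ * d + 3 * k) * d := Nat.mul_lt_mul_of_pos_right hc hd0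
      nlinarith
    · nlinarith
  obtain ⟨q, hq⟩ : ∃ q, q = (σ - 1) / 2 := ⟨_, rfl⟩
  have hq1 : 2 * q ≤ σ - 1 := by omega
  have hq2 : σ ≤ 2 * q + 2 := by omega
  have hq3 : 2 * q + 1 ≤ σ := by omega
  have h5 : (2 * q + 1) * d + 3 * k ≤ 3 * k ^ 2 := by
    have := Nat.mul_le_mul_right d hq3
    omega
  have h6 : 4 * k * q ≤ d := by
    by_contra hc
    push Not at hc
    have h7 : d * d < 4 * k * q * d := Nat.mul_lt_mul_of_pos_right hc hd0
    have h8 : 2 * k * ((2 * q + 1) * d + 3 * k) ≤ 2 * k * (3 * k ^ 2) :=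
      Nat.mul_le_mul_left _ h5
    nlinarith
  have hqk : q < k := by
    by_contra hc
    push Not at hc
    nlinarith
  refine ⟨q, hqk, ?_, ?_⟩
  · obtain ⟨P, hP⟩ : ∃ P, k = P + q + 1 := ⟨k - 1 - q, by omega⟩
    have e1 : k - 1 - q = P := by omega
    have e2 : 3 * k - q = 3 * P + 2 * q + 3 := by omega
    rw [e1, e2]
    subst hP
    nlinarith
  · omega

end Pool.TRN
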